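import Pool.Agent.Results.MP_cc72b1_an.MicroHilbert

/-!
# Two special cases of `MP_cc72b1_an.MicroHilbert`

Norm separable sets of isometries with a non-meagre orbit, and the micro-transitive case (the former statement).
-/

set_option autoImplicit false

namespace Pool.Agent.Helper89.MS

universe u v

variable (𝕜 : Type v) [RCLike 𝕜] (E : Type u) [NormedAddCommGroup E] [NormedSpace 𝕜 E] [CompleteSpace E]

/-- If a set `G` of surjective linear isometries is separable in the operator norm (contained in the norm closure of a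
sequence `S` of surjective linear isometries) and the points `T x₀`, `T ∈ G`, form a non-meagre subset of the unit
sphere (for instance all of it), then `E` is linearly isometric to a Hilbert space. -/
theorem of_separable (x₀ : E) (hx₀ : ‖x₀‖ = 1) (G : Set (E ≃ₗᵢ[𝕜] E)) (S : ℕ → (E ≃ₗᵢ[𝕜] E))
    (hS : ∀ T ∈ G, ∀ ε : ℝ, 0 < ε → ∃ n, ∀ z : E, ‖T z - S n z‖ ≤ ε * ‖z‖)
    (horb : ¬ IsMeagre {v : Metric.sphere (0 : E) 1 | ∃ T ∈ G, (v : E) = T x₀}) :
    ∃ (H : Type u) (_ : NormedAddCommGroup H) (_ : InnerProductSpace 𝕜 H) (_ : CompleteSpace H),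
      Nonempty (E ≃ₗᵢ[𝕜] H) := by
  refine Pool.Agent.Results.MP_cc72b1_an.MicroHilbert.result 𝕜 E x₀ hx₀ fun ε hε => ⟨S, fun hm => horb (hm.mono ?_)⟩
  rintro v ⟨T, hT, hv⟩
  obtain ⟨n, hn⟩ := hS T hT ε hε
  refine ⟨n, (S n).symm (T x₀), ⟨by rw [LinearIsometryEquiv.norm_map, LinearIsometryEquiv.norm_map, hx₀],
    fun η hη => ⟨((T.trans (S n).symm).toContinuousLinearEquiv : E →L[𝕜] E), ?_, ?_, fun z => ?_⟩⟩, ?_⟩
  · refine ContinuousLinearMap.opNorm_le_bound _ hε.le fun z => ?_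
    have h1 : (((T.trans (S n).symm).toContinuousLinearEquiv : E →L[𝕜] E) - ContinuousLinearMap.id 𝕜 E) z =
        (S n).symm (T z - S n z) := by
      rw [map_sub, LinearIsometryEquiv.symm_apply_apply]; rfl
    rw [h1, LinearIsometryEquiv.norm_map]
    exact hn z
  · have h1 : ((T.trans (S n).symm).toContinuousLinearEquiv : E →L[𝕜] E) x₀ - (S n).symm (T x₀) = 0 := sub_self _
    rw [h1, norm_zero]
    exact hη.le
  · have h1 : ‖((T.trans (S n).symm).toContinuousLinearEquiv : E →L[𝕜] E) z‖ = ‖z‖ :=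
      LinearIsometryEquiv.norm_map (T.trans (S n).symm) z
    rw [h1]
    have := norm_nonneg z
    constructor <;> nlinarith
  · rw [hv, LinearIsometryEquiv.apply_symm_apply]

/-- the former statement of `MicroHilbert` -/
theorem micro (x₀ : E) (hx₀ : ‖x₀‖ = 1)
    (h : ∀ ε : ℝ, 0 < ε → ∃ δ : ℝ, 0 < δ ∧ ∀ y : E, ‖y‖ = 1 → ‖y - x₀‖ < δ →
      ∀ η : ℝ, 0 < η → ∃ T : E →L[𝕜] E, ‖T - ContinuousLinearMap.id 𝕜 E‖ ≤ ε ∧
        ‖T x₀ - y‖ ≤ η ∧ ∀ z : E, (1 - η) * ‖z‖ ≤ ‖T z‖ ∧ ‖T z‖ ≤ (1 + η) * ‖z‖) :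
    ∃ (H : Type u) (_ : NormedAddCommGroup H) (_ : InnerProductSpace 𝕜 H) (_ : CompleteSpace H),
      Nonempty (E ≃ₗᵢ[𝕜] H) := by
  refine Pool.Agent.Results.MP_cc72b1_an.MicroHilbert.result 𝕜 E x₀ hx₀ fun ε hε =>
    ⟨fun _ => LinearIsometryEquiv.refl 𝕜 E, fun hm => ?_⟩
  obtain ⟨δ, hδ, hd⟩ := h ε hε
  haveI : CompleteSpace (Metric.sphere (0 : E) 1) := Metric.isClosed_sphere.completeSpace_coe
  have hne : (Metric.ball (⟨x₀, mem_sphere_zero_iff_norm.2 hx₀⟩ : Metric.sphere (0 : E) 1) δ).Nonempty :=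
    ⟨_, Metric.mem_ball_self hδ⟩
  refine not_isMeagre_of_isOpen Metric.isOpen_ball hne (hm.mono ?_)
  intro v hv
  rw [Metric.mem_ball, Subtype.dist_eq, dist_eq_norm] at hv
  exact ⟨0, v, ⟨mem_sphere_zero_iff_norm.1 v.2, hd v (mem_sphere_zero_iff_norm.1 v.2) hv⟩, rfl⟩

end Pool.Agent.Helper89.MS
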