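import Pool.Agent.Helper89.MS.Sep

/-!
# From a ball somewhere in the sphere to a ball around `x₀`
-/

set_option autoImplicit false

namespace Pool.Agent.Helper89.MS

universe u v

variable {𝕜 : Type v} [RCLike 𝕜] {E : Type u} [NormedAddCommGroup E] [NormedSpace 𝕜 E] [CompleteSpace E]

/-- the inverse of an almost isometric operator close to the identity -/
lemma exists_inv {W : E →L[𝕜] E} {ε η : ℝ} (hε : ε ≤ 1 / 4) (hη : η ≤ 1 / 8)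
    (h1 : ‖W - ContinuousLinearMap.id 𝕜 E‖ ≤ ε)
    (h3 : ∀ z : E, (1 - η) * ‖z‖ ≤ ‖W z‖ ∧ ‖W z‖ ≤ (1 + η) * ‖z‖) :
    ∃ V : E →L[𝕜] E, (∀ z, V (W z) = z) ∧ (∀ z, W (V z) = z) ∧ (∀ z, (1 - η) * ‖V z‖ ≤ ‖z‖) ∧
      ∀ z, ‖z‖ ≤ (1 + η) * ‖V z‖ := by
  have hlt : ‖(1 : E →L[𝕜] E) - W‖ < 1 := by
    rw [norm_sub_rev]
    exact lt_of_le_of_lt (le_trans h1 hε) (by norm_num)
  let U : (E →L[𝕜] E)ˣ := Units.oneSub (1 - W) hlt
  have hU : (U : E →L[𝕜] E) = W := by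
    change (1 : E →L[𝕜] E) - (1 - W) = W
    abel
  have hl : ∀ z, (↑(U⁻¹) : E →L[𝕜] E) (W z) = z := by
    intro z
    have := congrArg (fun A : E →L[𝕜] E => A z) U.inv_mul
    rw [hU] at this
    exact this
  have hr : ∀ z, W ((↑(U⁻¹) : E →L[𝕜] E) z) = z := by
    intro z
    have := congrArg (fun A : E →L[𝕜] E => A z) U.mul_inv
    rw [hU] at this
    exact this
  refine ⟨(↑(U⁻¹) : E →L[𝕜] E), hl, hr, fun z => ?_, fun z => ?_⟩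
  · have := (h3 ((↑(U⁻¹) : E →L[𝕜] E) z)).1
    rwa [hr] at this
  · have := (h3 ((↑(U⁻¹) : E →L[𝕜] E) z)).2
    rwa [hr] at this

/-- the main step -/
lemma near_of_ball {x₀ u : E} (hx₀ : ‖x₀‖ = 1) {ε r : ℝ} (hε0 : 0 ≤ ε) (hε : ε ≤ 1 / 4) (hu : ‖u‖ = 1) (hr : 0 < r)
    (h : ∀ y : E, ‖y‖ = 1 → ‖y - u‖ < r → Near 𝕜 x₀ ε y) (y : E) (hy : ‖y‖ = 1) (hyx : ‖y - x₀‖ < r / 4) :
    Near 𝕜 x₀ (4 * ε) y := by
  refine ⟨hy, fun η₀ hη₀ => ?_⟩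
  obtain ⟨η, hη, hη1, hη2, hη3⟩ : ∃ η : ℝ, 0 < η ∧ η ≤ η₀ / 8 ∧ η ≤ 1 / 8 ∧ η ≤ r / 16 :=
    ⟨min (min (η₀ / 8) (1 / 8)) (r / 16), by positivity,
      le_trans (min_le_left _ _) (min_le_left _ _), le_trans (min_le_left _ _) (min_le_right _ _), min_le_right _ _⟩
  obtain ⟨W, hW1, hW2, hW3⟩ := (h u hu (by simpa using hr)).2 η hη
  obtain ⟨V, hV1, hV2, hV3, hV4⟩ := exists_inv hε hη2 hW1 hW3
  -- the point `W y`
  have hWy := hW3 y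
  rw [hy, mul_one, mul_one] at hWy
  have hWyu : ‖W y - u‖ ≤ (1 + η) * (r / 4) + η := by
    calc ‖W y - u‖ = ‖W (y - x₀) + (W x₀ - u)‖ := by rw [map_sub]; congr 1; abel
      _ ≤ ‖W (y - x₀)‖ + ‖W x₀ - u‖ := norm_add_le _ _
      _ ≤ (1 + η) * ‖y - x₀‖ + η := add_le_add (hW3 _).2 hW2
      _ ≤ (1 + η) * (r / 4) + η := by
          have : 0 ≤ 1 + η := by linarith
          nlinarith [hyx.le]
  have hpos : 0 < ‖W y‖ := by linarith [hWy.1]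
  set c : ℝ := ‖W y‖⁻¹ with hc
  set y' : E := ((c : ℝ) : 𝕜) • W y with hy'
  have hc0 : 0 < c := inv_pos.2 hpos
  have hcm : c * ‖W y‖ = 1 := inv_mul_cancel₀ hpos.ne'
  have hny' : ‖y'‖ = 1 := by
    rw [hy', norm_smul, RCLike.norm_ofReal, abs_of_pos hc0, hcm]
  have hdist : ‖y' - W y‖ ≤ η := by
    have h1 : y' - W y = (((c - 1 : ℝ)) : 𝕜) • W y := by
      rw [hy', RCLike.ofReal_sub, RCLike.ofReal_one, sub_smul, one_smul]
    rw [h1, norm_smul, RCLike.norm_ofReal]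
    have h2 : |c - 1| * ‖W y‖ = |1 - ‖W y‖| := by
      rw [← abs_of_pos hpos, ← abs_mul, abs_of_pos hpos, sub_mul, hcm, one_mul]
    rw [h2, abs_le]
    constructor <;> linarith [hWy.1, hWy.2]
  have hy'u : ‖y' - u‖ < r := by
    calc ‖y' - u‖ = ‖(y' - W y) + (W y - u)‖ := by rw [sub_add_sub_cancel]
      _ ≤ ‖y' - W y‖ + ‖W y - u‖ := norm_add_le _ _
      _ ≤ η + ((1 + η) * (r / 4) + η) := add_le_add hdist hWyu
      _ < r := by nlinarith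
  obtain ⟨T', hT1, hT2, hT3⟩ := (h y' hny' hy'u).2 η hη
  have h78 : (7 / 8 : ℝ) ≤ 1 - η := by linarith
  have hVn : ∀ z, ‖V z‖ ≤ 8 / 7 * ‖z‖ := fun z => by
    have := hV3 z
    have h0 := norm_nonneg (V z)
    nlinarith
  refine ⟨V.comp T', ?_, ?_, fun z => ⟨?_, ?_⟩⟩
  · refine ContinuousLinearMap.opNorm_le_bound _ (by linarith) fun z => ?_
    have h1 : (V.comp T' - ContinuousLinearMap.id 𝕜 E) z = V (T' z - W z) := by
      rw [map_sub, hV1]; rfl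
    rw [h1]
    have h2 : ‖T' z - W z‖ ≤ 2 * ε * ‖z‖ := by
      calc ‖T' z - W z‖ = ‖(T' - ContinuousLinearMap.id 𝕜 E) z - (W - ContinuousLinearMap.id 𝕜 E) z‖ := by
            congr 1
            simp only [ContinuousLinearMap.sub_apply, ContinuousLinearMap.id_apply]
            abel
        _ ≤ ‖(T' - ContinuousLinearMap.id 𝕜 E) z‖ + ‖(W - ContinuousLinearMap.id 𝕜 E) z‖ := norm_sub_le _ _
        _ ≤ ε * ‖z‖ + ε * ‖z‖ := by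
            refine add_le_add (le_trans ((T' - ContinuousLinearMap.id 𝕜 E).le_opNorm z) ?_)
              (le_trans ((W - ContinuousLinearMap.id 𝕜 E).le_opNorm z) ?_)
            · exact mul_le_mul_of_nonneg_right hT1 (norm_nonneg z)
            · exact mul_le_mul_of_nonneg_right hW1 (norm_nonneg z)
        _ = 2 * ε * ‖z‖ := by ring
    have h3 := hVn (T' z - W z)
    have h4 : 0 ≤ ε * ‖z‖ := mul_nonneg hε0 (norm_nonneg z)
    nlinarith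
  · have h1 : (V.comp T') x₀ - y = V (T' x₀ - W y) := by
      rw [map_sub, hV1]; rfl
    rw [h1]
    have h2 : ‖T' x₀ - W y‖ ≤ 2 * η := by
      calc ‖T' x₀ - W y‖ = ‖(T' x₀ - y') + (y' - W y)‖ := by rw [sub_add_sub_cancel]
        _ ≤ ‖T' x₀ - y'‖ + ‖y' - W y‖ := norm_add_le _ _
        _ ≤ 2 * η := by linarith
    have h3 := hVn (T' x₀ - W y)
    linarith
  · have h1 := hV4 (T' z)
    have h2 := (hT3 z).1
    change _ ≤ ‖V (T' z)‖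
    have h0 := norm_nonneg z
    have hv := norm_nonneg (V (T' z))
    -- (1 - η) ‖z‖ ≤ (1 + η) ‖V T' z‖
    have h4 : (1 - η) * ‖z‖ ≤ (1 + η) * ‖V (T' z)‖ := le_trans h2 h1
    have h5 : (1 + η) * ((1 - η₀) * ‖z‖) ≤ (1 + η) * ‖V (T' z)‖ := by
      refine le_trans ?_ h4
      have : (1 + η) * (1 - η₀) ≤ 1 - η := by nlinarith
      calc (1 + η) * ((1 - η₀) * ‖z‖) = ((1 + η) * (1 - η₀)) * ‖z‖ := by ring
        _ ≤ (1 - η) * ‖z‖ := mul_le_mul_of_nonneg_right this h0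
    exact le_of_mul_le_mul_left h5 (by linarith)
  · have h1 := hV3 (T' z)
    have h2 := (hT3 z).2
    change ‖V (T' z)‖ ≤ _
    have h0 := norm_nonneg z
    have h4 : (1 - η) * ‖V (T' z)‖ ≤ (1 + η) * ‖z‖ := le_trans h1 h2
    have h5 : (1 - η) * ‖V (T' z)‖ ≤ (1 - η) * ((1 + η₀) * ‖z‖) := by
      refine le_trans h4 ?_
      have : 1 + η ≤ (1 - η) * (1 + η₀) := by nlinarith
      calc (1 + η) * ‖z‖ ≤ ((1 - η) * (1 + η₀)) * ‖z‖ := mul_le_mul_of_nonneg_right this h0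
        _ = (1 - η) * ((1 + η₀) * ‖z‖) := by ring
    exact le_of_mul_le_mul_left h5 (by linarith)

/-- **the hypothesis of micro-transitivity at `x₀`** from the non-meagre hypothesis -/
theorem exists_delta {x₀ : E} (hx₀ : ‖x₀‖ = 1)
    (h : ∀ ε : ℝ, 0 < ε → ∃ S : ℕ → (E ≃ₗᵢ[𝕜] E),
      ¬ IsMeagre {v : Metric.sphere (0 : E) 1 | ∃ (n : ℕ) (y : E), Near 𝕜 x₀ ε y ∧ (v : E) = S n y})
    (ε : ℝ) (hε : 0 < ε) : ∃ δ : ℝ, 0 < δ ∧ ∀ y : E, ‖y‖ = 1 → ‖y - x₀‖ < δ →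
      ∀ η : ℝ, 0 < η → ∃ T : E →L[𝕜] E, ‖T - ContinuousLinearMap.id 𝕜 E‖ ≤ ε ∧
        ‖T x₀ - y‖ ≤ η ∧ ∀ z : E, (1 - η) * ‖z‖ ≤ ‖T z‖ ∧ ‖T z‖ ≤ (1 + η) * ‖z‖ := by
  obtain ⟨ε', h0, h1, h2⟩ : ∃ ε' : ℝ, 0 < ε' ∧ ε' ≤ 1 / 4 ∧ 4 * ε' ≤ ε :=
    ⟨min (1 / 4) (ε / 4), by positivity, min_le_left _ _, by
      have := min_le_right (1 / 4 : ℝ) (ε / 4); linarith⟩
  obtain ⟨S, hS⟩ := h ε' h0
  obtain ⟨u, r, hu, hr, hball⟩ := exists_ball x₀ ε' S hS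
  refine ⟨r / 4, by positivity, fun y hy hyx η hη => ?_⟩
  obtain ⟨T, hT1, hT2, hT3⟩ := (near_of_ball hx₀ h0.le h1 hu hr hball y hy hyx).2 η hη
  exact ⟨T, le_trans hT1 h2, hT2, hT3⟩

end Pool.Agent.Helper89.MS
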