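import Mathlib

/-!
# Countably many translates of the near-identity almost isometries

If, for every `ε > 0`, countably many isometric translates of the set `A ε` of the unit vectors which are almost
`T x₀`, `‖T - id‖ ≤ ε`, form a non-meagre subset of the unit sphere, then `A ε` is a neighbourhood of `x₀` in the
unit sphere for every `ε > 0`.
-/

set_option autoImplicit false

namespace Pool.Agent.Helper89.MS

universe u v

variable (𝕜 : Type v) [RCLike 𝕜] {E : Type u} [NormedAddCommGroup E] [NormedSpace 𝕜 E]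

/-- unit vectors `y` approximated by `T x₀`, `T` almost isometric with `‖T - id‖ ≤ ε` -/
def Near (x₀ : E) (ε : ℝ) (y : E) : Prop :=
  ‖y‖ = 1 ∧ ∀ η : ℝ, 0 < η → ∃ T : E →L[𝕜] E, ‖T - ContinuousLinearMap.id 𝕜 E‖ ≤ ε ∧
    ‖T x₀ - y‖ ≤ η ∧ ∀ z : E, (1 - η) * ‖z‖ ≤ ‖T z‖ ∧ ‖T z‖ ≤ (1 + η) * ‖z‖

variable {𝕜}

lemma near_of_close {x₀ y : E} {ε : ℝ} (hy : ‖y‖ = 1)
    (h : ∀ η : ℝ, 0 < η → ∃ y' : E, Near 𝕜 x₀ ε y' ∧ ‖y' - y‖ < η) : Near 𝕜 x₀ ε y := by
  refine ⟨hy, fun η hη => ?_⟩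
  obtain ⟨y', ⟨_, hy'⟩, hd⟩ := h (η / 2) (by linarith)
  obtain ⟨T, h1, h2, h3⟩ := hy' (η / 2) (by linarith)
  refine ⟨T, h1, ?_, fun z => ⟨?_, ?_⟩⟩
  · calc ‖T x₀ - y‖ = ‖(T x₀ - y') + (y' - y)‖ := by rw [sub_add_sub_cancel]
      _ ≤ ‖T x₀ - y'‖ + ‖y' - y‖ := norm_add_le _ _
      _ ≤ η := by linarith
  · refine le_trans ?_ (h3 z).1
    have := norm_nonneg z
    nlinarith
  · refine le_trans (h3 z).2 ?_
    have := norm_nonneg z
    nlinarith

/-- a non-meagre countable union of translates gives a ball in the set itself -/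
lemma exists_ball (x₀ : E) (ε : ℝ) (S : ℕ → (E ≃ₗᵢ[𝕜] E))
    (h : ¬ IsMeagre {v : Metric.sphere (0 : E) 1 | ∃ (n : ℕ) (y : E), Near 𝕜 x₀ ε y ∧ (v : E) = S n y}) :
    ∃ (u : E) (r : ℝ), ‖u‖ = 1 ∧ 0 < r ∧ ∀ y : E, ‖y‖ = 1 → ‖y - u‖ < r → Near 𝕜 x₀ ε y := by
  classical
  by_contra hcon
  push Not at hcon
  apply h
  have hset : {v : Metric.sphere (0 : E) 1 | ∃ (n : ℕ) (y : E), Near 𝕜 x₀ ε y ∧ (v : E) = S n y} =
      ⋃ n : ℕ, {v : Metric.sphere (0 : E) 1 | Near 𝕜 x₀ ε ((S n).symm v)} := by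
    ext v
    simp only [Set.mem_setOf_eq, Set.mem_iUnion]
    constructor
    · rintro ⟨n, y, hy, hv⟩
      exact ⟨n, by rw [hv, LinearIsometryEquiv.symm_apply_apply]; exact hy⟩
    · rintro ⟨n, hn⟩
      exact ⟨n, (S n).symm v, hn, by rw [LinearIsometryEquiv.apply_symm_apply]⟩
  rw [hset]
  refine isMeagre_iUnion fun n => ?_
  apply IsNowhereDense.isMeagre
  have hclosed : IsClosed {v : Metric.sphere (0 : E) 1 | Near 𝕜 x₀ ε ((S n).symm v)} := by
    rw [← isSeqClosed_iff_isClosed]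
    intro w v hw hv
    refine near_of_close ?_ fun η hη => ?_
    · rw [LinearIsometryEquiv.norm_map]
      exact mem_sphere_zero_iff_norm.1 v.2
    · have hv' := (Metric.tendsto_atTop.1 hv) η hη
      obtain ⟨N, hN⟩ := hv'
      refine ⟨(S n).symm (w N), hw N, ?_⟩
      rw [← map_sub, LinearIsometryEquiv.norm_map, ← dist_eq_norm]
      exact hN N le_rfl
  rw [hclosed.isNowhereDense_iff]
  rw [Set.eq_empty_iff_forall_notMem]
  intro v hv
  rw [mem_interior_iff_mem_nhds, Metric.mem_nhds_iff] at hv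
  obtain ⟨r, hr, hball⟩ := hv
  obtain ⟨y, hy1, hy2, hy3⟩ := hcon ((S n).symm v) r (by
    rw [LinearIsometryEquiv.norm_map]; exact mem_sphere_zero_iff_norm.1 v.2) hr
  apply hy3
  have hmem : (⟨S n y, mem_sphere_zero_iff_norm.2 (by rw [LinearIsometryEquiv.norm_map, hy1])⟩ :
      Metric.sphere (0 : E) 1) ∈ Metric.ball v r := by
    rw [Metric.mem_ball, Subtype.dist_eq, dist_eq_norm]
    calc ‖S n y - (v : E)‖ = ‖S n (y - (S n).symm v)‖ := by
          rw [map_sub, LinearIsometryEquiv.apply_symm_apply]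
      _ = ‖y - (S n).symm v‖ := by rw [LinearIsometryEquiv.norm_map]
      _ < r := hy2
  have := hball hmem
  simpa using this

end Pool.Agent.Helper89.MS
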